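import Pool.Agent.Helper45.U4.St3

/-! Project U4, module FFO: end of rank four. -/

set_option autoImplicit false

open Module Classical
open scoped LinearAlgebra.Projectivization

namespace Pool.Agent.Helper96.U4

open Pool.Agent.Helper45.U4 Pool.Agent.Helper53.PB

section
variable {F V : Type} [Field F] [AddCommGroup V] [Module F V]

lemma map_rep_mem (W : Submodule F V) (H : Submodule F W) (Q : ℙ F W) :
    (Projectivization.map W.subtype W.injective_subtype Q).rep ∈ H.map W.subtype ↔ Q.rep ∈ H := by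
  induction Q using Projectivization.ind with
  | h v hv =>
    rw [Projectivization.map_mk, rep_mk_mem, rep_mk_mem]
    constructor
    · rintro ⟨x, hx, hxv⟩
      have h1 : x = v := W.injective_subtype hxv
      rw [← h1]
      exact hx
    · intro h
      exact ⟨v, h, rfl⟩

lemma exists_map (W : Submodule F V) {y : ℙ F V} (hy : y.rep ∈ W) :
    ∃ Q : ℙ F W, Projectivization.map W.subtype W.injective_subtype Q = y := by
  have h0 : (⟨y.rep, hy⟩ : W) ≠ 0 := by
    intro h1
    exact y.rep_nonzero (congrArg Subtype.val h1)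
  refine ⟨Projectivization.mk F ⟨y.rep, hy⟩ h0, ?_⟩
  rw [Projectivization.map_mk]
  exact y.mk_rep

/-- the points of `T` in `W`, as points of `W` -/
noncomputable def SW [Finite V] (T : Finset (ℙ F V)) (W : Submodule F V) : Finset (ℙ F W) :=
  Finset.univ.filter (fun Q => Projectivization.map W.subtype W.injective_subtype Q ∈ T)

lemma tt_SW [Finite V] (T : Finset (ℙ F V)) (W : Submodule F V) (H : Submodule F W) :
    tt (SW T W) H = tt T (H.map W.subtype) := by
  unfold tt
  rw [← Finset.card_image_of_injective _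
    (Projectivization.map_injective W.subtype W.injective_subtype)]
  congr 1
  ext y
  rw [Finset.mem_image, Finset.mem_filter]
  constructor
  · rintro ⟨Q, hQ, rfl⟩
    rw [Finset.mem_filter] at hQ
    refine ⟨(Finset.mem_filter.1 hQ.1).2, ?_⟩
    rw [map_rep_mem]
    exact hQ.2
  · rintro ⟨hyT, hyH⟩
    have hyW : y.rep ∈ W := by
      obtain ⟨x, _, hx⟩ := hyH
      rw [← hx]
      exact x.2
    obtain ⟨Q, rfl⟩ := exists_map W hyW
    refine ⟨Q, ?_, rfl⟩
    rw [Finset.mem_filter]
    refine ⟨Finset.mem_filter.2 ⟨Finset.mem_univ _, hyT⟩, ?_⟩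
    rw [map_rep_mem] at hyH
    exact hyH

/-- the span of pairwise perpendicular singular vectors is totally singular -/
lemma ts_span (P : Polar F V) (S : Set V) (hs : ∀ x ∈ S, P.sing x)
    (hp : ∀ x ∈ S, ∀ y ∈ S, P.f x y = 0) : P.TS (Submodule.span F S) := by
  have h1 : ∀ x ∈ Submodule.span F S, ∀ y ∈ Submodule.span F S, P.f x y = 0 := by
    intro x hx y hy
    refine Polar.perp_span (S := S) (fun s hs' => ?_) hx
    apply P.symm
    exact Polar.perp_span (S := S) (fun t ht => hp t ht s hs') hy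
  refine ⟨?_, h1⟩
  intro x hx
  induction hx using Submodule.span_induction with
  | mem x hx => exact hs x hx
  | zero => exact P.sing_zero
  | add x y hx hy ihx ihy => exact P.sing_add x y ihx ihy (h1 x hx y hy)
  | smul a x _ ihx => exact P.sing_smul a x ihx

end

theorem hFFO (h1 : StTHR) (h2 : StEXA) (h3 : StEXB) (h4 : StCOL) (h5 : StFIN) : StFFO := by
  intro F V _ _ _ _ _ _ φ T hM
  have hHs := hM.hs
  obtain ⟨X, hX⟩ := h2 φ T hM
  obtain ⟨e1, e2, e3⟩ := h3 φ T X hM hX
  have ecol := h4 φ T X hM hX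
  set P := φ.toPolar with hP
  have hgen := hHs.gen
  -- the generator `W`
  have hsingX : ∀ x : ℙ F V, 0 < X x → P.sing x.rep := by
    intro x hx
    by_contra hn
    have := hX.sup x hn
    omega
  have hTS : P.TS (Submodule.span F {v : V | ∃ x : ℙ F V, 0 < X x ∧ v = x.rep}) := by
    apply ts_span
    · rintro v ⟨x, hx, rfl⟩
      exact hsingX x hx
    · rintro v ⟨x, hx, rfl⟩ w ⟨y, hy, rfl⟩
      exact ecol x y hx hy
  obtain ⟨W, hW, hSW⟩ := Polar.exists_gen_ge hTS
  have hpos : ∀ x : ℙ F V, 0 < X x → x.rep ∈ W := fun x hx =>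
    hSW (Submodule.subset_span ⟨x, hx, rfl⟩)
  have hout : ∀ x : ℙ F V, x.rep ∉ W → X x = 0 := by
    intro x hx
    have h6 := hX.nonneg x
    by_contra hne
    exact hx (hpos x (lt_of_le_of_ne h6 (Ne.symm hne)))
  have htfW : tf X W = 10 := by
    rw [← hX.tot]
    unfold tf
    apply Finset.sum_subset (Finset.subset_univ _)
    intro y _ hy
    apply hout
    intro h6
    exact hy (mem_pts.2 h6)
  have httW : tt T W = 11 := by
    have h6 := hX.tt W hW
    rw [htfW] at h6
    omega
  have hWdim : finrank F W = 4 := hgen W hW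
  -- the contradiction
  have hScard : (SW T W).card = 11 := by
    have h6 := tt_SW T W ⊤
    rw [Submodule.map_top, Submodule.range_subtype, httW] at h6
    rw [← h6]
    unfold tt
    congr 1
    ext Q
    simp
  apply h5 (SW T W) hHs.card hWdim hScard
  intro H hH
  rw [tt_SW]
  set E : Submodule F V := H.map W.subtype with hE
  have hEdim : finrank F E = 3 := by
    rw [hE, Submodule.finrank_map_subtype_eq, hH]
  have hEW : E ≤ W := by
    rintro x ⟨y, _, rfl⟩
    exact y.2
  have hETS : P.TS E := Polar.TS.mono hW.1 hEW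
  by_cases h0 : tt T E = 0
  · exact Or.inl h0
  right
  obtain ⟨z, hzT, hzE⟩ : ∃ z ∈ T, z.rep ∈ E := by
    unfold tt at h0
    obtain ⟨z, hz⟩ := Finset.card_pos.1 (Nat.pos_of_ne_zero h0)
    exact ⟨z, (Finset.mem_filter.1 hz).1, (Finset.mem_filter.1 hz).2⟩
  -- a second generator on `E`
  obtain ⟨U, hU, hUW⟩ : ∃ U, P.Gen U ∧ U ⊓ W = E := by
    obtain ⟨⟨U0, U1, U2, hT⟩, _⟩ := h1 φ 4 hHs E hETS (by rw [hEdim])
    rcases hT.all W hW hEW with h6 | h6 | h6
    · refine ⟨U1, hT.g1, ?_⟩
      rw [h6, inf_comm]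
      exact hT.i01
    · refine ⟨U0, hT.g0, ?_⟩
      rw [h6]
      exact hT.i01
    · refine ⟨U0, hT.g0, ?_⟩
      rw [h6]
      exact hT.i02
  have hEU : E ≤ U := by
    rw [← hUW]
    exact inf_le_left
  have hUdim : finrank F U = 4 := hgen U hU
  obtain ⟨v, hvU, hvW⟩ : ∃ v ∈ U, v ∉ W := by
    by_contra hcon
    push Not at hcon
    have h6 : U ≤ W := hcon
    have h7 : U ⊓ W = U := inf_eq_left.2 h6
    rw [hUW] at h7
    rw [h7, hUdim] at hEdim
    omega
  have hv0 : v ≠ 0 := by
    rintro rfl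
    exact hvW (zero_mem _)
  set y : ℙ F V := Projectivization.mk F v hv0 with hy
  have hyU : y.rep ∈ U := (rep_mk_mem hv0).2 hvU
  have hyW : y.rep ∉ W := fun h => hvW ((rep_mk_mem hv0).1 h)
  have hysing : P.sing y.rep := hU.1.1 _ hyU
  have hker : W ⊓ LinearMap.ker (P.f y.rep) = E := by
    symm
    apply Submodule.eq_of_le_of_finrank_eq
    · refine le_inf hEW ?_
      intro x hx
      exact hU.1.2 _ hyU _ (hEU hx)
    · have h6 := Polar.finrank_inf_ker W (P.f y.rep) (Polar.Gen.not_le hW hysing hyW)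
      rw [hWdim] at h6
      rw [hEdim]
      omega
  have hnfy : nf P X y = tf X E := by
    unfold nf tf pts
    rw [Finset.sum_filter, Finset.sum_filter]
    apply Finset.sum_congr rfl
    intro x _
    by_cases hxW : x.rep ∈ W
    · have h6 : P.f x.rep y.rep = 0 ↔ x.rep ∈ E := by
        rw [← hker, Submodule.mem_inf, LinearMap.mem_ker]
        exact ⟨fun h => ⟨hxW, P.symm _ _ h⟩, fun h => P.symm _ _ h.2⟩
      simp only [h6]
    · rw [hout x hxW]
      simp
  have hnf2 : 2 ≤ nf P X y := by
    by_cases hyT : y ∈ T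
    · exact e2 y hyT
    · rcases e3 y hysing hyT (hout y hyW) with h6 | h6
      · rw [h6]
      · omega
  have htfU : tf X E ≤ tf X U := by
    unfold tf
    apply Finset.sum_le_sum_of_subset_of_nonneg
    · intro x hx
      rw [mem_pts] at hx ⊢
      exact hEU hx
    · intro x _ _
      exact hX.nonneg x
  have httU : 3 ≤ tt T U := by
    have h6 := hX.tt U hU
    omega
  -- the points of `T` in `U` are in `E`
  have hnfz : nf P X z = 10 := by
    rw [← hX.tot]
    unfold nf
    apply Finset.sum_subset (Finset.subset_univ _)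
    intro x _ hx
    apply hout
    intro h6
    exact hx (Finset.mem_filter.2 ⟨Finset.mem_univ _, hW.1.2 _ h6 _ (hEW hzE)⟩)
  have hnn : P.nn T z = 11 := by
    have h6 := e1 z (hW.1.1 _ (hEW hzE))
    rw [hnfz, hX.zero z hzT] at h6
    unfold s4 at h6
    rw [nf_chi, chi_mem hzT] at h6
    omega
  have hsub : T.filter (fun x => x.rep ∈ W) = T.filter (fun x => P.f x.rep z.rep = 0) := by
    apply Finset.eq_of_subset_of_card_le
    · intro x hx
      rw [Finset.mem_filter] at hx ⊢
      exact ⟨hx.1, hW.1.2 _ hx.2 _ (hEW hzE)⟩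
    · have h6 : (T.filter (fun x => P.f x.rep z.rep = 0)).card = 11 := hnn
      have h7 : (T.filter (fun x => x.rep ∈ W)).card = 11 := httW
      rw [h6, h7]
  have hle : tt T U ≤ tt T E := by
    unfold tt
    apply Finset.card_le_card
    intro x hx
    rw [Finset.mem_filter] at hx ⊢
    refine ⟨hx.1, ?_⟩
    rw [← hUW]
    refine ⟨hx.2, ?_⟩
    have h6 : x ∈ T.filter (fun x => P.f x.rep z.rep = 0) :=
      Finset.mem_filter.2 ⟨hx.1, hU.1.2 _ hx.2 _ (hEU hzE)⟩
    rw [← hsub] at h6
    exact (Finset.mem_filter.1 h6).2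
  omega

end Pool.Agent.Helper96.U4
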